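import Pool.Agent.Y982.LR.Rigid
import Pool.Agent.Y982.DE.Law

/-!
# Number rigidity of the hard-edge limit of the beta-Laguerre ensembles
-/

set_option autoImplicit false

open scoped BigOperators ENNReal Topology
open MeasureTheory ProbabilityTheory Set Filter

namespace Pool.Agent.Results.MP_e6d203_pr.HardEdgeRigid

/-- The chamber `0 < x_1 < ... < x_n`. -/
def chamber (n : ℕ) : Set (Fin n → ℝ) := {x | (∀ i, 0 < x i) ∧ ∀ i j, i < j → x i < x j}

/-- The (not normalised) joint density
`∏_{i<j} |x_i - x_j|^β ∏_i x_i^(β(a+1)/2 - 1) exp(-β x_i / 2)`. -/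
noncomputable def dens (β a : ℝ) {n : ℕ} (x : Fin n → ℝ) : ℝ :=
  (∏ i, ∏ j ∈ Finset.Ioi i, |x i - x j| ^ β) *
    ∏ i, (x i ^ (β / 2 * (a + 1) - 1) * Real.exp (-(β / 2 * x i)))

/-- The measure on the chamber with density `dens`. -/
noncomputable def weight (β a : ℝ) (n : ℕ) : Measure (Fin n → ℝ) :=
  (volume.restrict (chamber n)).withDensity fun x => ENNReal.ofReal (dens β a x)

/-- The `β`-Laguerre ensemble of size `n`: the configuration `0 < x_1 < ... < x_n` with joint
density proportional to `dens`. -/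
noncomputable def laguerre (β a : ℝ) (n : ℕ) : Measure (Fin n → ℝ) :=
  (weight β a n univ)⁻¹ • weight β a n

/-- A simple point process on `(0,∞)`: a random locally finite set of points of `(0,∞)`, seen
as the counting measure of that set. -/
structure SimplePointProcess {Ω : Type*} [MeasurableSpace Ω] (P : Measure Ω)
    (ξ : Ω → Measure ℝ) : Prop where
  meas : Measurable ξ
  simple : ∀ᵐ ω ∂P, ∃ S : Set ℝ, S ⊆ Ioi 0 ∧ (∀ r s : ℝ, 0 < r → (S ∩ Icc r s).Finite) ∧
    ξ ω = Measure.count.restrict S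

/-- Number rigidity on `E`. -/
def NumberRigid {Ω : Type*} [MeasurableSpace Ω] (P : Measure Ω) (ξ : Ω → Measure ℝ)
    (E : Set ℝ) : Prop :=
  ∀ B : Set ℝ, MeasurableSet B → Bornology.IsBounded B → B ⊆ E →
    ∃ G : Measure ℝ → ℝ≥0∞, Measurable G ∧ ∀ᵐ ω ∂P, ξ ω B = G ((ξ ω).restrict (E \ B))

/-- `ξ` is the limit in law of the configurations `{κ n x_i}` on `(0,∞)`, where `x` is the
`β`-Laguerre ensemble of size `n`. -/
def IsHardEdgeLimit (β a κ : ℝ) {Ω : Type*} [MeasurableSpace Ω] (P : Measure Ω)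
    (ξ : Ω → Measure ℝ) : Prop :=
  ∀ f : ℝ → ℝ, Continuous f → HasCompactSupport f → tsupport f ⊆ Ioi 0 →
    ∀ g : ℝ → ℝ, Continuous g → (∃ M, ∀ t, |g t| ≤ M) →
      Tendsto (fun n : ℕ => ∫ x, g (∑ i, f (κ * n * x i)) ∂(laguerre β a n)) atTop
        (𝓝 (∫ ω, g (∫ x, f x ∂(ξ ω)) ∂P))

open Pool.Agent.Y982.DE in
theorem chamber_eq (n : ℕ) : chamber n = Wp n := by
  ext x
  constructor
  · rintro ⟨h1, h2⟩
    exact ⟨fun i j hij => h2 i j hij, h1⟩
  · rintro ⟨h1, h2⟩
    exact ⟨h2, fun i j hij => h1 hij⟩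

open Pool.Agent.Y982.DE in
theorem dens_eq (β a : ℝ) {n : ℕ} {x : Fin n → ℝ} (hx : x ∈ Wp n) :
    dens β a x = rA (β / 2) (a + 1) x := by
  unfold dens rA Van
  have h1 : ∏ i, ∏ j ∈ Finset.Ioi i, |x i - x j| ^ β =
      (∏ i : Fin n, ∏ j ∈ Finset.Ioi i, (x j - x i)) ^ (2 * (β / 2)) := by
    have e : 2 * (β / 2) = β := by ring
    rw [e, ← Real.finsetProd_rpow]
    · refine Finset.prod_congr rfl fun i _ => ?_
      rw [← Real.finsetProd_rpow]
      · refine Finset.prod_congr rfl fun j hj => ?_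
        have : x i < x j := hx.1 (Finset.mem_Ioi.1 hj)
        rw [abs_sub_comm, abs_of_pos (by linarith)]
      · intro j hj
        have : x i < x j := hx.1 (Finset.mem_Ioi.1 hj)
        linarith
    · intro i _
      refine Finset.prod_nonneg fun j hj => ?_
      have : x i < x j := hx.1 (Finset.mem_Ioi.1 hj)
      linarith
  rw [h1, Finset.prod_mul_distrib, ← Real.finsetProd_rpow _ _ fun i _ => (hx.2 i).le,
    ← Real.exp_sum, Finset.sum_neg_distrib, ← Finset.mul_sum]
  ring

open Pool.Agent.Y982.DE in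
theorem lint_weight (β a : ℝ) (n : ℕ) {F : (Fin n → ℝ) → ℝ≥0∞} (hF : Measurable F) :
    ∫⁻ x, F x ∂(weight β a n) =
      ∫⁻ x in Wp n, ENNReal.ofReal (rA (β / 2) (a + 1) x) * F x := by
  have hd : Measurable fun x : Fin n → ℝ => ENNReal.ofReal (dens β a x) := by
    refine Measurable.ennreal_ofReal ?_
    unfold dens
    refine Measurable.mul ?_ ?_
    · refine Finset.measurable_prod _ fun i _ => Finset.measurable_prod _ fun j _ => ?_
      fun_prop
    · refine Finset.measurable_prod _ fun i _ => ?_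
      fun_prop
  unfold weight
  rw [lintegral_withDensity_eq_lintegral_mul _ hd hF, chamber_eq]
  refine setLIntegral_congr_fun meas_Wp fun x hx => ?_
  simp only [Pi.mul_apply]
  rw [dens_eq β a hx]

open Pool.Agent.Y982.DE in
theorem weight_univ (β a : ℝ) (n : ℕ) : weight β a n univ = mass β (a + 1) n := by
  rw [← lintegral_one, lint_weight β a n measurable_const]
  unfold mass
  simp only [mul_one]

open Pool.Agent.Y982.LR Pool.Agent.Y982.DE in
/-- `laguerre` is a probability measure. -/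
theorem laguerre_prob (β a : ℝ) (hβ : 0 < β) (ha : -1 < a) (n : ℕ) :
    IsProbabilityMeasure (laguerre β a n) := by
  haveI : Fact (0 < β) := ⟨hβ⟩
  haveI : Fact (0 < a + 1) := ⟨by linarith⟩
  obtain ⟨h0, h1, -⟩ := stat_law' β (a + 1) n
  refine ⟨?_⟩
  unfold laguerre
  rw [Measure.smul_apply, weight_univ, smul_eq_mul]
  exact ENNReal.inv_mul_cancel h0 h1

open Pool.Agent.Y982.LR Pool.Agent.Y982.DE in
/-- The law of the linear statistics of the ensemble, from the matrix model. -/
theorem stat_map (β a : ℝ) (hβ : 0 < β) (ha : -1 < a) (κ : ℝ) {f : ℝ → ℝ} (hf : Continuous f)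
    (n : ℕ) : (laguerre β a n).map (fun x => ∑ i, f (κ * n * x i)) =
      (PP (gam β (a + 1))).map (LSn κ n f) := by
  haveI : Fact (0 < β) := ⟨hβ⟩
  haveI : Fact (0 < a + 1) := ⟨by linarith⟩
  obtain ⟨-, -, h⟩ := stat_law' β (a + 1) n
  have hg : Continuous fun t => f (κ * n * t) := hf.comp (continuous_const.mul continuous_id)
  have hs : Measurable fun x : Fin n → ℝ => ∑ i, f (κ * n * x i) :=
    Finset.measurable_sum _ fun i _ => hg.measurable.comp (measurable_pi_apply i)
  refine Measure.ext_of_lintegral _ fun F hF => ?_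
  rw [lintegral_map hF hs, lintegral_map hF (meas_LSn κ n hf)]
  have h1 := h (fun t => f (κ * n * t)) hg.measurable F hF
  have h2 : ∀ w, F (LSn κ n f w) = F (∑ i, f (κ * n * ev n (bw w) (cw w) i)) := fun w => rfl
  simp only [h2]
  rw [h1]
  unfold laguerre
  rw [lintegral_smul_measure, smul_eq_mul, weight_univ,
    lint_weight β a n (F := fun x => F (∑ i, f (κ * n * x i))) (hF.comp hs)]

open Pool.Agent.Y982.LR in
/-- The hard-edge limit process of the `β`-Laguerre ensembles is number rigid, for every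
`β > 0` and `a > -1`. -/
theorem result (β a : ℝ) (hβ : 0 < β) (ha : -1 < a) (κ : ℝ) (hκ : 0 < κ)
    {Ω : Type*} [MeasurableSpace Ω] (P : Measure Ω) [IsProbabilityMeasure P]
    (ξ : Ω → Measure ℝ) (hξ : SimplePointProcess P ξ) (hlim : IsHardEdgeLimit β a κ P ξ) :
    NumberRigid P ξ (Ioi 0) := by
  haveI : Fact (0 < β) := ⟨hβ⟩
  haveI : Fact (0 < a + 1) := ⟨by linarith⟩
  intro B hB hBb hB0
  have hL : LimHyp β (a + 1) κ P ξ := by
    intro f hf g hg hgb
    have h := hlim f hf.1 hf.2.1 hf.2.2 g hg hgb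
    refine h.congr fun n => ?_
    have hc : Continuous fun t => f (κ * n * t) :=
      hf.1.comp (continuous_const.mul continuous_id)
    have hs : Measurable fun x : Fin n → ℝ => ∑ i, f (κ * n * x i) :=
      Finset.measurable_sum _ fun i _ => hc.measurable.comp (measurable_pi_apply i)
    rw [← integral_map (φ := fun x : Fin n → ℝ => ∑ i, f (κ * n * x i)) (f := g)
      hs.aemeasurable hg.measurable.aestronglyMeasurable, stat_map β a hβ ha κ hf.1 n]
    exact integral_map (meas_LSn κ n hf.1).aemeasurable hg.measurable.aestronglyMeasurable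
  have hfin : LocFin P ξ := by
    unfold LocFin
    filter_upwards [hξ.simple] with ω hω
    obtain ⟨S, -, hS, hc⟩ := hω
    intro r s hr
    rw [hc, Measure.restrict_apply measurableSet_Icc, Set.inter_comm]
    exact Measure.count_apply_lt_top.2 (hS r s hr)
  exact rigid_core β (a + 1) P ξ κ hκ hL hξ.meas hfin B hB hBb hB0

end Pool.Agent.Results.MP_e6d203_pr.HardEdgeRigid
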